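import Mathlib

set_option autoImplicit false

namespace Pool.Agent.Results.MP_6ce170_co.ThreeColour

open Combinatorics

/-! ### Ramsey's theorem for pairs (finite version, any finite set of colours) -/

theorem end_homog (C : Type) [Fintype C] [DecidableEq C] (m : ℕ) :
    ∃ N : ℕ, ∀ S : Finset ℕ, N ≤ S.card → ∀ χ : ℕ → ℕ → C,
      ∃ T ⊆ S, T.card = m ∧ (m = 0 ∨ ∃ f : ℕ → C, ∀ a ∈ T, ∀ b ∈ T, a < b → χ a b = f a) := by
  classical
  induction m with
  | zero => exact ⟨0, fun S _ χ => ⟨∅, by simp, by simp, Or.inl rfl⟩⟩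
  | succ m ih =>
    obtain ⟨N, hN⟩ := ih
    refine ⟨Fintype.card C * N + 1, fun S hS χ => ?_⟩
    have hne : S.Nonempty := by
      rw [← Finset.card_pos]; omega
    set x := S.min' hne with hx
    have hxS : x ∈ S := Finset.min'_mem S hne
    have hcard : Fintype.card C * N ≤ (S.erase x).card := by
      rw [Finset.card_erase_of_mem hxS]; omega
    have hC : (Finset.univ : Finset C).Nonempty ∨ ¬ (Finset.univ : Finset C).Nonempty := em _
    have hCne : (Finset.univ : Finset C).Nonempty := ⟨χ 0 0, Finset.mem_univ _⟩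
    obtain ⟨c, -, hc⟩ := Finset.exists_le_card_fiber_of_mul_le_card_of_maps_to
      (s := S.erase x) (t := (Finset.univ : Finset C)) (f := fun y => χ x y) (n := N)
      (fun _ _ => Finset.mem_univ _) hCne (by rw [Finset.card_univ]; exact hcard)
    obtain ⟨T, hTS, hTm, hT⟩ := hN _ hc χ
    have hxT : x ∉ T := by
      intro hxT
      have := hTS hxT
      simp at this
    have hlt : ∀ y ∈ T, x < y := by
      intro y hy
      have h1 := hTS hy
      rw [Finset.mem_filter, Finset.mem_erase] at h1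
      exact lt_of_le_of_ne (Finset.min'_le S y h1.1.2) (Ne.symm h1.1.1)
    refine ⟨insert x T, ?_, ?_, Or.inr ?_⟩
    · intro y hy
      rw [Finset.mem_insert] at hy
      rcases hy with rfl | hy
      · exact hxS
      · have h1 := hTS hy
        rw [Finset.mem_filter, Finset.mem_erase] at h1
        exact h1.1.2
    · rw [Finset.card_insert_of_notMem hxT, hTm]
    · rcases hT with hm | ⟨f, hf⟩
      · subst hm
        rw [Finset.card_eq_zero] at hTm
        subst hTm
        refine ⟨fun _ => c, ?_⟩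
        intro a ha b hb hab
        simp at ha hb
        omega
      · refine ⟨Function.update f x c, ?_⟩
        intro a ha b hb hab
        rw [Finset.mem_insert] at ha hb
        rcases ha with rfl | ha
        · rcases hb with rfl | hb
          · exact absurd hab (lt_irrefl _)
          · rw [Function.update_self]
            have h1 := hTS hb
            rw [Finset.mem_filter] at h1
            exact h1.2
        · have hax : a ≠ x := fun h => hxT (h ▸ ha)
          rw [Function.update_of_ne hax]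
          rcases hb with rfl | hb
          · exact absurd hab (not_lt.2 (hlt a ha).le)
          · exact hf a ha b hb hab

theorem ramsey_pairs (C : Type) [Finite C] [Nonempty C] (h : ℕ) :
    ∃ N : ℕ, ∀ χ : Fin N → Fin N → C, ∃ s : Fin h ↪o Fin N, ∃ col : C,
      ∀ a b : Fin h, a < b → χ (s a) (s b) = col := by
  classical
  have := Fintype.ofFinite C
  obtain ⟨N, hN⟩ := end_homog C (Fintype.card C * h)
  refine ⟨N, fun χ => ?_⟩
  let χ' : ℕ → ℕ → C := fun a b =>
    if hab : a < N ∧ b < N then χ ⟨a, hab.1⟩ ⟨b, hab.2⟩ else Classical.arbitrary C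
  obtain ⟨T, hTS, hTm, hT⟩ := hN (Finset.range N) (by simp) χ'
  have hT' : ∃ f : ℕ → C, ∀ a ∈ T, ∀ b ∈ T, a < b → χ' a b = f a := by
    rcases hT with hm | hT
    · rw [hm, Finset.card_eq_zero] at hTm
      subst hTm
      exact ⟨fun _ => Classical.arbitrary C, by simp⟩
    · exact hT
  obtain ⟨f, hf⟩ := hT'
  obtain ⟨c, -, hc⟩ := Finset.exists_le_card_fiber_of_mul_le_card_of_maps_to
    (s := T) (t := (Finset.univ : Finset C)) (f := f) (n := h)
    (fun _ _ => Finset.mem_univ _) ⟨Classical.arbitrary C, Finset.mem_univ _⟩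
    (by rw [Finset.card_univ, hTm])
  obtain ⟨U, hU, hUh⟩ := Finset.exists_subset_card_eq hc
  let e := U.orderEmbOfFin hUh
  have he : ∀ a, e a ∈ U := fun a => Finset.orderEmbOfFin_mem U hUh a
  have heT : ∀ a, e a ∈ T ∧ f (e a) = c := by
    intro a
    have := hU (he a)
    rwa [Finset.mem_filter] at this
  have heN : ∀ a, e a < N := by
    intro a
    have := hTS (heT a).1
    simpa using this
  refine ⟨OrderEmbedding.ofStrictMono (fun a => (⟨e a, heN a⟩ : Fin N)) ?_, c, ?_⟩
  · intro a b hab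
    exact e.strictMono hab
  · intro a b hab
    have h1 := hf (e a) (heT a).1 (e b) (heT b).1 (e.strictMono hab)
    rw [(heT a).2] at h1
    rw [← h1]
    show χ ⟨e a, _⟩ ⟨e b, _⟩ = χ' (e a) (e b)
    simp only [χ', dif_pos (And.intro (heN a) (heN b))]

/-! ### Typed graphs and the partite construction -/

/-- a system of pairwise disjoint symmetric relations indexed by `T` -/
structure TG (T V : Type) where
  E : T → V → V → Prop
  symm : ∀ σ v w, E σ v w → E σ w v
  disj : ∀ σ σ' v w, E σ v w → E σ' v w → σ = σ'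

/-- no clique of type `σ` with `κ σ` vertices -/
def TG.Free {T V : Type} (A : TG T V) (κ : T → ℕ) : Prop :=
  ∀ σ, ∀ f : Fin (κ σ) → V, ¬ (∀ a b, a ≠ b → A.E σ (f a) (f b))

/-- the inductive property of the partite construction -/
def Good {T V₀ : Type} (C : Type) (κ : T → ℕ) (A₀ : TG T V₀) (N : ℕ) (π₀ : V₀ → Fin N)
    (D : Finset (Fin N × Fin N × T)) : Prop :=
  ∃ (V : Type) (_ : Finite V) (A : TG T V) (π : V → Fin N),
    (∀ σ v w, A.E σ v w → π v ≠ π w) ∧ A.Free κ ∧
    ∀ c : V → V → C, (∀ v w, c v w = c w v) →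
      ∃ φ : V₀ → V, (∀ v, π (φ v) = π₀ v) ∧ (∀ σ v w, A₀.E σ v w → A.E σ (φ v) (φ w)) ∧
        ∀ d ∈ D, ∃ col : C, ∀ v w, π₀ v = d.1 → π₀ w = d.2.1 → A₀.E d.2.2 v w →
          c (φ v) (φ w) = col

section step

variable {T V : Type} {N : ℕ} (A : TG T V) (π : V → Fin N) (i j : Fin N) (τ : T)

/-- the type of `τ`-edges between the parts `i` and `j` -/
abbrev Al : Type := {p : V × V // π p.1 = i ∧ π p.2 = j ∧ A.E τ p.1 p.2}

variable {ι : Type}

/-- the map of a vertex of the parts `i`, `j` into the power, along a line -/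
def psi (l : Line (Al A π i j τ) ι) (x : V) : ι → V := fun m =>
  (l.idxFun m).elim x (fun p => if π x = i then p.1.1 else p.1.2)

/-- the new edge relation -/
def E' (σ : T) : (ι → V) ⊕ (Line (Al A π i j τ) ι × V) → (ι → V) ⊕ (Line (Al A π i j τ) ι × V) → Prop
  | .inl f, .inl g => ((∀ m, π (f m) = i ∧ π (g m) = j) ∨ (∀ m, π (f m) = j ∧ π (g m) = i)) ∧
      (∀ m, A.E τ (f m) (g m) ∨ A.E σ (f m) (g m)) ∧ ∃ m, A.E σ (f m) (g m)
  | .inl f, .inr (l, v) => (π v ≠ i ∧ π v ≠ j) ∧
      ∃ x, (π x = i ∨ π x = j) ∧ f = psi A π i j τ l x ∧ A.E σ x v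
  | .inr (l, v), .inl f => (π v ≠ i ∧ π v ≠ j) ∧
      ∃ x, (π x = i ∨ π x = j) ∧ f = psi A π i j τ l x ∧ A.E σ v x
  | .inr (l, v), .inr (l', w) => l = l' ∧ (π v ≠ i ∧ π v ≠ j) ∧ (π w ≠ i ∧ π w ≠ j) ∧ A.E σ v w

variable {A π i j τ}

theorem psi_inj {l : Line (Al A π i j τ) ι} {x y : V}
    (h : psi A π i j τ l x = psi A π i j τ l y) : x = y := by
  obtain ⟨m, hm⟩ := l.proper
  have := congrFun h m
  simpa [psi, hm] using this

/-- the new typed graph -/
def newTG (A : TG T V) (π : V → Fin N) (i j : Fin N) (τ : T) (ι : Type) :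
    TG T ((ι → V) ⊕ (Line (Al A π i j τ) ι × V)) where
  E := E' A π i j τ
  symm := by
    rintro σ (f | ⟨l, v⟩) (g | ⟨l', w⟩) h
    · obtain ⟨h1, h2, h3⟩ := h
      refine ⟨?_, ?_, ?_⟩
      · rcases h1 with h1 | h1
        · exact Or.inr fun m => ⟨(h1 m).2, (h1 m).1⟩
        · exact Or.inl fun m => ⟨(h1 m).2, (h1 m).1⟩
      · intro m
        exact (h2 m).imp (A.symm _ _ _) (A.symm _ _ _)
      · obtain ⟨m, hm⟩ := h3
        exact ⟨m, A.symm _ _ _ hm⟩
    · obtain ⟨h1, x, h2, h3, h4⟩ := h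
      exact ⟨h1, x, h2, h3, A.symm _ _ _ h4⟩
    · obtain ⟨h1, x, h2, h3, h4⟩ := h
      exact ⟨h1, x, h2, h3, A.symm _ _ _ h4⟩
    · obtain ⟨h1, h2, h3, h4⟩ := h
      exact ⟨h1.symm, h3, h2, A.symm _ _ _ h4⟩
  disj := by
    rintro σ σ' (f | ⟨l, v⟩) (g | ⟨l', w⟩) h h'
    · obtain ⟨-, h2, m, h3⟩ := h
      obtain ⟨-, h2', m', h3'⟩ := h'
      have e1 : σ = τ ∨ σ = σ' := (h2' m).imp (A.disj _ _ _ _ h3) (A.disj _ _ _ _ h3)
      have e2 : σ' = τ ∨ σ' = σ := (h2 m').imp (A.disj _ _ _ _ h3') (A.disj _ _ _ _ h3')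
      rcases e1 with e1 | e1
      · rcases e2 with e2 | e2
        · rw [e1, e2]
        · exact e2.symm
      · exact e1
    · obtain ⟨-, x, -, h3, h4⟩ := h
      obtain ⟨-, x', -, h3', h4'⟩ := h'
      have : x = x' := psi_inj (h3.symm.trans h3')
      subst this
      exact A.disj _ _ _ _ h4 h4'
    · obtain ⟨-, x, -, h3, h4⟩ := h
      obtain ⟨-, x', -, h3', h4'⟩ := h'
      have : x = x' := psi_inj (h3.symm.trans h3')
      subst this
      exact A.disj _ _ _ _ h4 h4'
    · exact A.disj _ _ _ _ h.2.2.2 h'.2.2.2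

open Classical in
/-- the new projection -/
noncomputable def newπ (A : TG T V) (π : V → Fin N) (i j : Fin N) (τ : T) (ι : Type) :
    (ι → V) ⊕ (Line (Al A π i j τ) ι × V) → Fin N
  | .inl f => if ∀ m, π (f m) = i then i else j
  | .inr (_, v) => π v

open Classical in
/-- the embedding of the old picture along a line -/
noncomputable def emb (l : Line (Al A π i j τ) ι) (x : V) :
    (ι → V) ⊕ (Line (Al A π i j τ) ι × V) :=
  if π x = i ∨ π x = j then .inl (psi A π i j τ l x) else .inr (l, x)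

theorem psi_i {l : Line (Al A π i j τ) ι} {x : V} (hx : π x = i) (m : ι) :
    π (psi A π i j τ l x m) = i := by
  unfold psi
  cases h : l.idxFun m with
  | none => simpa using hx
  | some p => simp [hx, p.2.1]

theorem psi_j {l : Line (Al A π i j τ) ι} {x : V} (hij : i ≠ j) (hx : π x = j) (m : ι) :
    π (psi A π i j τ l x m) = j := by
  unfold psi
  cases h : l.idxFun m with
  | none => simpa using hx
  | some p => simp [hx, hij.symm, p.2.2.1]

theorem newπ_emb (hij : i ≠ j) (l : Line (Al A π i j τ) ι) (x : V) :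
    newπ A π i j τ ι (emb l x) = π x := by
  classical
  unfold emb
  split_ifs with h
  · rcases h with h | h
    · simp only [newπ]
      rw [if_pos (fun m => psi_i h m), h]
    · simp only [newπ]
      rw [if_neg, h]
      intro hall
      obtain ⟨m, _⟩ := l.proper
      exact hij ((hall m).symm.trans (psi_j hij h m))
  · rfl

theorem emb_pres (hij : i ≠ j) (hpart : ∀ σ v w, A.E σ v w → π v ≠ π w)
    (l : Line (Al A π i j τ) ι) (σ : T) (x y : V) (hxy : A.E σ x y) :
    E' A π i j τ σ (emb l x) (emb l y) := by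
  classical
  obtain ⟨m₀, hm₀⟩ := l.proper
  have hne := hpart _ _ _ hxy
  unfold emb
  by_cases hx : π x = i ∨ π x = j <;> by_cases hy : π y = i ∨ π y = j
  · rw [if_pos hx, if_pos hy]
    refine ⟨?_, ?_, ⟨m₀, by simpa [psi, hm₀] using hxy⟩⟩
    · rcases hx with hx | hx
      · rcases hy with hy | hy
        · exact absurd (hx.trans hy.symm) hne
        · exact Or.inl fun m => ⟨psi_i hx m, psi_j hij hy m⟩
      · rcases hy with hy | hy
        · exact Or.inr fun m => ⟨psi_j hij hx m, psi_i hy m⟩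
        · exact absurd (hx.trans hy.symm) hne
    · intro m
      unfold psi
      cases h : l.idxFun m with
      | none => right; simpa using hxy
      | some p =>
        left
        rcases hx with hx | hx
        · rcases hy with hy | hy
          · exact absurd (hx.trans hy.symm) hne
          · simpa [hx, hy, hij.symm] using p.2.2.2
        · rcases hy with hy | hy
          · simpa [hx, hy, hij.symm] using A.symm _ _ _ p.2.2.2
          · exact absurd (hx.trans hy.symm) hne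
  · rw [if_pos hx, if_neg hy]
    exact ⟨⟨fun h => hy (Or.inl h), fun h => hy (Or.inr h)⟩, x, hx, rfl, hxy⟩
  · rw [if_neg hx, if_pos hy]
    exact ⟨⟨fun h => hx (Or.inl h), fun h => hx (Or.inr h)⟩, y, hy, rfl, hxy⟩
  · rw [if_neg hx, if_neg hy]
    exact ⟨rfl, ⟨fun h => hx (Or.inl h), fun h => hx (Or.inr h)⟩,
      ⟨fun h => hy (Or.inl h), fun h => hy (Or.inr h)⟩, hxy⟩

theorem emb_refl (hij : i ≠ j) (l : Line (Al A π i j τ) ι) (σ : T) (x y : V)
    (hxy : E' A π i j τ σ (emb l x) (emb l y)) : A.E σ x y := by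
  classical
  obtain ⟨m₀, hm₀⟩ := l.proper
  unfold emb at hxy
  by_cases hx : π x = i ∨ π x = j <;> by_cases hy : π y = i ∨ π y = j
  · rw [if_pos hx, if_pos hy] at hxy
    obtain ⟨h1, h2, m, h3⟩ := hxy
    have h4 := h2 m₀
    simp only [psi, hm₀, Option.elim_none] at h4
    rcases h4 with h4 | h4
    · -- `τ`-edge at the active coordinate
      by_cases hστ : σ = τ
      · rw [hστ]; exact h4
      · -- then the coordinate `m` must be active
        cases h : l.idxFun m with
        | none => simpa [psi, h] using h3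
        | some p =>
          exfalso
          apply hστ
          simp only [psi, h, Option.elim_some] at h3
          have hp := p.2.2.2
          rcases h1 with h1 | h1
          · have b1 := (h1 m₀).1
            have b2 := (h1 m₀).2
            simp only [psi, hm₀, Option.elim_none] at b1 b2
            have hyi : ¬ π y = i := fun hyi => hij (hyi.symm.trans b2)
            rw [if_pos b1, if_neg hyi] at h3
            exact A.disj _ _ _ _ h3 hp
          · have b1 := (h1 m₀).1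
            have b2 := (h1 m₀).2
            simp only [psi, hm₀, Option.elim_none] at b1 b2
            have hxi : ¬ π x = i := fun hxi => hij (hxi.symm.trans b1)
            rw [if_neg hxi, if_pos b2] at h3
            exact A.disj _ _ _ _ h3 (A.symm _ _ _ hp)
    · exact h4
  · rw [if_pos hx, if_neg hy] at hxy
    obtain ⟨_, z, _, h3, h4⟩ := hxy
    rw [psi_inj h3]; exact h4
  · rw [if_neg hx, if_pos hy] at hxy
    obtain ⟨_, z, _, h3, h4⟩ := hxy
    rw [psi_inj h3]; exact h4
  · rw [if_neg hx, if_neg hy] at hxy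
    exact hxy.2.2.2

theorem newTG_part (hij : i ≠ j) (hpart : ∀ σ v w, A.E σ v w → π v ≠ π w) :
    ∀ σ v w, (newTG A π i j τ ι).E σ v w → newπ A π i j τ ι v ≠ newπ A π i j τ ι w := by
  classical
  rintro σ (f | ⟨l, v⟩) (g | ⟨l', w⟩) h
  · obtain ⟨h1, -, m, -⟩ := h
    simp only [newπ]
    rcases h1 with h1 | h1
    · rw [if_pos (fun m => (h1 m).1), if_neg]
      · exact hij
      · intro hall
        exact hij ((hall m).symm.trans (h1 m).2)
    · rw [if_neg, if_pos (fun m => (h1 m).2)]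
      · exact hij.symm
      · intro hall
        exact hij ((hall m).symm.trans (h1 m).1)
  · obtain ⟨h1, -⟩ := h
    simp only [newπ]
    split_ifs
    · exact h1.1.symm
    · exact h1.2.symm
  · obtain ⟨h1, -⟩ := h
    simp only [newπ]
    split_ifs
    · exact h1.1
    · exact h1.2
  · exact hpart _ _ _ h.2.2.2

theorem emb_of_edge (l : Line (Al A π i j τ) ι) (v : V) (σ : T)
    (z : (ι → V) ⊕ (Line (Al A π i j τ) ι × V))
    (h : E' A π i j τ σ (.inr (l, v)) z) : (.inr (l, v)) = emb l v ∧ ∃ x, z = emb l x := by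
  classical
  have hv : ∀ v, (π v ≠ i ∧ π v ≠ j) → (.inr (l, v)) = emb l v := by
    intro v hv
    unfold emb
    rw [if_neg]
    rintro (h | h)
    · exact hv.1 h
    · exact hv.2 h
  rcases z with f | ⟨l', w⟩
  · obtain ⟨h1, x, h2, h3, -⟩ := h
    refine ⟨hv v h1, x, ?_⟩
    unfold emb
    rw [if_pos h2, h3]
  · obtain ⟨h1, h2, h3, -⟩ := h
    subst h1
    exact ⟨hv v h2, w, hv w h3⟩

theorem newTG_free (hij : i ≠ j) (κ : T → ℕ) (hκ : ∀ σ, 3 ≤ κ σ) (hfree : A.Free κ) :
    (newTG A π i j τ ι).Free κ := by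
  classical
  intro σ f hf
  have h3 := hκ σ
  by_cases hinr : ∃ a l v, f a = .inr (l, v)
  · obtain ⟨a, l, v, ha⟩ := hinr
    -- another vertex
    have hall : ∀ b, ∃ x, f b = emb l x := by
      intro b
      by_cases hb : b = a
      · -- use some other vertex
        obtain ⟨b', hb'⟩ : ∃ b' : Fin (κ σ), b' ≠ a := by
          by_cases ha0 : a = ⟨0, by omega⟩
          · exact ⟨⟨1, by omega⟩, by rw [ha0]; simp [Fin.ext_iff]⟩
          · exact ⟨⟨0, by omega⟩, fun h => ha0 h.symm⟩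
        have h1 := hf a b' (Ne.symm hb')
        rw [ha] at h1
        refine ⟨v, ?_⟩
        rw [hb, ha]
        exact (emb_of_edge l v σ _ h1).1
      · have h1 := hf a b (Ne.symm hb)
        rw [ha] at h1
        exact (emb_of_edge l v σ _ h1).2
    choose g hg using hall
    refine hfree σ g fun b b' hbb' => ?_
    have h1 := hf b b' hbb'
    rw [hg, hg] at h1
    exact emb_refl hij l σ _ _ h1
  · have hinl : ∀ a, ∃ F : ι → V, f a = .inl F := by
      intro a
      rcases h : f a with F | ⟨l, v⟩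
      · exact ⟨F, rfl⟩
      · exact absurd ⟨a, l, v, h⟩ hinr
    choose F hF using hinl
    have hE : ∀ a b, a ≠ b → ((∀ m, π (F a m) = i ∧ π (F b m) = j) ∨
        (∀ m, π (F a m) = j ∧ π (F b m) = i)) ∧ ∃ m, A.E σ (F a m) (F b m) := by
      intro a b hab
      have h1 := hf a b hab
      rw [hF a, hF b] at h1
      exact ⟨h1.1, h1.2.2⟩
    let a0 : Fin (κ σ) := ⟨0, by omega⟩
    let a1 : Fin (κ σ) := ⟨1, by omega⟩
    let a2 : Fin (κ σ) := ⟨2, by omega⟩
    have h01 : a0 ≠ a1 := by simp [a0, a1, Fin.ext_iff]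
    have h02 : a0 ≠ a2 := by simp [a0, a2, Fin.ext_iff]
    have h12 : a1 ≠ a2 := by simp [a1, a2, Fin.ext_iff]
    obtain ⟨e1, m, -⟩ := hE a0 a1 h01
    obtain ⟨e2, -⟩ := hE a0 a2 h02
    obtain ⟨e3, -⟩ := hE a1 a2 h12
    rcases e1 with e1 | e1 <;> rcases e2 with e2 | e2 <;> rcases e3 with e3 | e3
    · exact hij ((e3 m).1.symm.trans (e1 m).2)
    · exact hij ((e3 m).2.symm.trans (e2 m).2)
    · exact hij ((e1 m).1.symm.trans (e2 m).1)
    · exact hij ((e1 m).1.symm.trans (e2 m).1)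
    · exact hij ((e2 m).1.symm.trans (e1 m).1)
    · exact hij ((e2 m).1.symm.trans (e1 m).1)
    · exact hij ((e2 m).2.symm.trans (e3 m).2)
    · exact hij ((e1 m).2.symm.trans (e3 m).1)

theorem emb_apply_line (hij : i ≠ j) (l : Line (Al A π i j τ) ι) (p : Al A π i j τ) :
    emb l p.1.1 = .inl (fun m => (l p m).1.1) ∧ emb l p.1.2 = .inl (fun m => (l p m).1.2) := by
  classical
  have h1 : π p.1.1 = i := p.2.1
  have h2 : π p.1.2 = j := p.2.2.1
  have h3 : ¬ π p.1.2 = i := fun h => hij (h.symm.trans h2)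
  constructor
  · unfold emb
    rw [if_pos (Or.inl h1)]
    congr 1
    funext m
    unfold psi
    rw [Line.apply_def]
    cases h : l.idxFun m with
    | none => simp [h]
    | some q => simp [h, h1]
  · unfold emb
    rw [if_pos (Or.inr h2)]
    congr 1
    funext m
    unfold psi
    rw [Line.apply_def]
    cases h : l.idxFun m with
    | none => simp [h]
    | some q => simp [h, h3]

end step

theorem finite_line (α ι : Type) [Finite α] [Finite ι] : Finite (Line α ι) := by
  refine Finite.of_injective (fun l : Line α ι => l.idxFun) ?_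
  rintro ⟨f, hf⟩ ⟨g, hg⟩ h
  cases h
  rfl

theorem good_step {T V₀ C : Type} [Finite C] (κ : T → ℕ) (hκ : ∀ σ, 3 ≤ κ σ) (A₀ : TG T V₀)
    (N : ℕ) (π₀ : V₀ → Fin N) [DecidableEq T] (D : Finset (Fin N × Fin N × T))
    (i j : Fin N) (τ : T) (hij : i ≠ j)
    (h : Good C κ A₀ N π₀ D) : Good C κ A₀ N π₀ (insert (i, j, τ) D) := by
  classical
  obtain ⟨V, hV, A, π, hpart, hfree, hcol⟩ := h
  obtain ⟨ι, hι, hHJ⟩ := Line.exists_mono_in_high_dimension (Al A π i j τ) C
  have := finite_line (Al A π i j τ) ι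
  refine ⟨(ι → V) ⊕ (Line (Al A π i j τ) ι × V), inferInstance, newTG A π i j τ ι,
    newπ A π i j τ ι, newTG_part hij hpart, newTG_free hij κ hκ hfree, ?_⟩
  intro c hc
  obtain ⟨l, col, hl⟩ := hHJ (fun e => c (.inl (fun m => (e m).1.1)) (.inl (fun m => (e m).1.2)))
  obtain ⟨φ, h1, h2, h3⟩ := hcol (fun v w => c (emb l v) (emb l w)) (fun v w => hc _ _)
  refine ⟨fun v => emb l (φ v), fun v => ?_, fun σ v w hvw => ?_, fun d hd => ?_⟩
  · rw [newπ_emb hij, h1]
  · exact emb_pres hij hpart l σ _ _ (h2 σ v w hvw)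
  · rw [Finset.mem_insert] at hd
    rcases hd with rfl | hd
    · refine ⟨col, fun v w hv hw hvw => ?_⟩
      have hp : A.E τ (φ v) (φ w) := h2 τ v w hvw
      let p : Al A π i j τ := ⟨(φ v, φ w), (h1 v).trans hv, (h1 w).trans hw, hp⟩
      have h4 := hl p
      obtain ⟨h5, h6⟩ := emb_apply_line hij l p
      show c (emb l p.1.1) (emb l p.1.2) = col
      rw [h5, h6]
      exact h4
    · exact h3 d hd

theorem good_all {T V₀ C : Type} [Finite C] [Finite V₀] (κ : T → ℕ) (hκ : ∀ σ, 3 ≤ κ σ)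
    (A₀ : TG T V₀) (N : ℕ) (π₀ : V₀ → Fin N) (hpart : ∀ σ v w, A₀.E σ v w → π₀ v ≠ π₀ w)
    (hfree : A₀.Free κ) [DecidableEq T] (D : Finset (Fin N × Fin N × T))
    (hD : ∀ d ∈ D, d.1 ≠ d.2.1) : Good C κ A₀ N π₀ D := by
  classical
  induction D using Finset.induction_on with
  | empty =>
    exact ⟨V₀, inferInstance, A₀, π₀, hpart, hfree, fun c _ =>
      ⟨id, fun _ => rfl, fun _ _ _ h => h, by simp⟩⟩
  | insert d D hd ih =>
    obtain ⟨i, j, τ⟩ := d
    refine good_step κ hκ A₀ N π₀ D i j τ (hD (i, j, τ) (Finset.mem_insert_self _ _)) ?_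
    exact ih fun d hd => hD d (Finset.mem_insert_of_mem hd)

/-- The typed Nešetřil–Rödl theorem for edge colourings. -/
theorem typed_NR (T C : Type) [Finite T] [Finite C] [Nonempty C] (κ : T → ℕ)
    (hκ : ∀ σ, 3 ≤ κ σ) (h : ℕ) (H : TG T (Fin h)) (hirr : ∀ σ a, ¬ H.E σ a a)
    (hfree : H.Free κ) :
    ∃ (V : Type) (_ : Finite V) (A : TG T V), (∀ σ v, ¬ A.E σ v v) ∧ A.Free κ ∧
      ∀ c : V → V → C, (∀ v w, c v w = c w v) →
        ∃ (φ : Fin h → V) (χ : T → C), ∀ σ a b, H.E σ a b →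
          A.E σ (φ a) (φ b) ∧ c (φ a) (φ b) = χ σ := by
  classical
  have := Fintype.ofFinite T
  obtain ⟨N, hN⟩ := ramsey_pairs (T → C) h
  let A₀ : TG T ((Fin h ↪o Fin N) × Fin h) :=
    { E := fun σ v w => v.1 = w.1 ∧ H.E σ v.2 w.2
      symm := fun σ v w hvw => ⟨hvw.1.symm, H.symm _ _ _ hvw.2⟩
      disj := fun σ σ' v w h1 h2 => H.disj _ _ _ _ h1.2 h2.2 }
  let π₀ : (Fin h ↪o Fin N) × Fin h → Fin N := fun v => v.1 v.2
  have hpart : ∀ σ v w, A₀.E σ v w → π₀ v ≠ π₀ w := by
    rintro σ ⟨s, a⟩ ⟨s', b⟩ ⟨h1, h2⟩ h3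
    dsimp only at h1 h2
    subst h1
    have : a = b := s.injective h3
    subst this
    exact hirr _ _ h2
  have hfr : A₀.Free κ := by
    intro σ f hf
    exact hfree σ (fun a => (f a).2) fun a b hab => (hf a b hab).2
  have hfin : Finite ((Fin h ↪o Fin N) × Fin h) := by
    have : Finite (Fin h ↪o Fin N) :=
      Finite.of_injective (fun s : Fin h ↪o Fin N => (s : Fin h → Fin N)) DFunLike.coe_injective
    infer_instance
  obtain ⟨V, hV, A, π, hpA, hfA, hcA⟩ := good_all (C := C) κ hκ A₀ N π₀ hpart hfr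
    (Finset.univ.filter (fun d => d.1 ≠ d.2.1)) (fun d hd => (Finset.mem_filter.1 hd).2)
  refine ⟨V, hV, A, fun σ v hv => hpA σ v v hv rfl, hfA, fun c hc => ?_⟩
  obtain ⟨φ, h1, h2, h3⟩ := hcA c hc
  have h4 : ∀ i j : Fin N, ∀ τ : T, ∃ col : C, i ≠ j → ∀ v w, π₀ v = i → π₀ w = j →
      A₀.E τ v w → c (φ v) (φ w) = col := by
    intro i j τ
    by_cases hij : i = j
    · exact ⟨Classical.arbitrary C, fun h => absurd hij h⟩
    · obtain ⟨col, hcol⟩ := h3 (i, j, τ) (by simp [hij])
      exact ⟨col, fun _ => hcol⟩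
  choose X hX using h4
  obtain ⟨s, χ, hs⟩ := hN (fun i j τ => X i j τ)
  refine ⟨fun a => φ (s, a), χ, fun σ a b hab => ?_⟩
  have hA : ∀ a b, H.E σ a b → A.E σ (φ (s, a)) (φ (s, b)) := fun a b hab =>
    h2 σ (s, a) (s, b) ⟨rfl, hab⟩
  refine ⟨hA a b hab, ?_⟩
  have hlt : ∀ a b, a < b → H.E σ a b → c (φ (s, a)) (φ (s, b)) = χ σ := by
    intro a b hlt hab
    have e1 := hX (s a) (s b) σ (fun h => (ne_of_lt hlt) (s.injective h)) (s, a) (s, b) rfl rfl
      ⟨rfl, hab⟩
    rw [e1]
    exact congrFun (hs a b hlt) σ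
  rcases lt_trichotomy a b with hlt' | heq | hgt
  · exact hlt a b hlt' hab
  · subst heq; exact absurd hab (hirr _ _)
  · show c (φ (s, a)) (φ (s, b)) = χ σ
    rw [hc]
    exact hlt b a hgt (H.symm _ _ _ hab)

/-- the same with vertex set `Fin n` -/
theorem typed_NR_fin (T C : Type) [Finite T] [Finite C] [Nonempty C] (κ : T → ℕ)
    (hκ : ∀ σ, 3 ≤ κ σ) (h : ℕ) (H : TG T (Fin h)) (hirr : ∀ σ a, ¬ H.E σ a a)
    (hfree : H.Free κ) :
    ∃ (n : ℕ) (A : TG T (Fin n)), (∀ σ v, ¬ A.E σ v v) ∧ A.Free κ ∧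
      ∀ c : Fin n → Fin n → C, (∀ v w, c v w = c w v) →
        ∃ (φ : Fin h → Fin n) (χ : T → C), ∀ σ a b, H.E σ a b →
          A.E σ (φ a) (φ b) ∧ c (φ a) (φ b) = χ σ := by
  obtain ⟨V, hV, A, h1, h2, h3⟩ := typed_NR T C κ hκ h H hirr hfree
  obtain ⟨n, ⟨e⟩⟩ := Finite.exists_equiv_fin V
  refine ⟨n, ⟨fun σ v w => A.E σ (e.symm v) (e.symm w), fun σ v w h => A.symm _ _ _ h,
    fun σ σ' v w h h' => A.disj _ _ _ _ h h'⟩, fun σ v hv => h1 _ _ hv,
    fun σ f hf => h2 σ (fun a => e.symm (f a)) hf, fun c hc => ?_⟩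
  obtain ⟨φ, χ, h4⟩ := h3 (fun v w => c (e v) (e w)) (fun v w => hc _ _)
  refine ⟨fun a => e (φ a), χ, fun σ a b hab => ⟨?_, (h4 σ a b hab).2⟩⟩
  have := (h4 σ a b hab).1
  simpa using this

/-! ### The result -/

/-- `G → (K_{a 0}, …, K_{a (r-1)})`: for every colouring of the edges of `G` with the colours
`0, …, r-1` there are a colour `i` and a set of `a i` vertices of `G` any two of which are joined by
an edge of colour `i`. -/
def Arrows {V : Type} (G : SimpleGraph V) {r : ℕ} (a : Fin r → ℕ) : Prop :=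
  ∀ c : G.edgeSet → Fin r, ∃ i : Fin r, ∃ S : Finset V, S.card = a i ∧
    ∀ x ∈ S, ∀ y ∈ S, x ≠ y → ∃ h : G.Adj x y, c ⟨s(x, y), h⟩ = i

/-- the typed graph that is to be found: a clique of type `false` on `k - 1` vertices, a clique of
type `true` on `ℓ - 1` further vertices, one vertex of which is joined by edges of type `true` to the
former -/
def HH (k ℓ : ℕ) : TG Bool (Fin (k - 1 + (ℓ - 1))) where
  E := fun σ a b => a ≠ b ∧ (if σ = true then
      ((k - 1 ≤ a.1 ∧ k - 1 ≤ b.1) ∨ (a.1 < k - 1 ∧ b.1 = k - 1) ∨ (a.1 = k - 1 ∧ b.1 < k - 1))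
      else (a.1 < k - 1 ∧ b.1 < k - 1))
  symm := by
    rintro (_ | _) a b ⟨h1, h2⟩
    · simp only [Bool.false_eq_true, if_false] at h2 ⊢
      exact ⟨h1.symm, h2.2, h2.1⟩
    · simp only [if_true] at h2 ⊢
      exact ⟨h1.symm, by omega⟩
  disj := by
    rintro (_ | _) (_ | _) a b ⟨h1, h2⟩ ⟨h3, h4⟩
    · rfl
    · simp only [Bool.false_eq_true, if_false, if_true] at h2 h4
      omega
    · simp only [Bool.false_eq_true, if_false, if_true] at h2 h4
      omega
    · rfl

theorem HH_free_false (k ℓ : ℕ) (hℓ : 3 ≤ ℓ) (hk : ℓ ≤ k)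
    (f : Fin k → Fin (k - 1 + (ℓ - 1))) : ¬ ∀ a b, a ≠ b → (HH k ℓ).E false (f a) (f b) := by
  intro hf
  have hlt : ∀ a, (f a).1 < k - 1 := by
    intro a
    obtain ⟨b, hb⟩ : ∃ b : Fin k, a ≠ b := by
      by_cases ha0 : a = ⟨0, by omega⟩
      · exact ⟨⟨1, by omega⟩, by rw [ha0]; simp [Fin.ext_iff]⟩
      · exact ⟨⟨0, by omega⟩, ha0⟩
    have := (hf a b hb).2
    simp only [Bool.false_eq_true, if_false] at this
    exact this.1
  have hinj : Function.Injective (fun a : Fin k => (⟨(f a).1, hlt a⟩ : Fin (k - 1))) := by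
    intro a b hab
    by_contra hne
    have h1 : (f a).1 = (f b).1 := by simpa using hab
    exact (hf a b hne).1 (Fin.ext h1)
  have := Fintype.card_le_of_injective _ hinj
  simp only [Fintype.card_fin] at this
  omega

theorem HH_free_true (k ℓ : ℕ) (hℓ : 3 ≤ ℓ)
    (f : Fin ℓ → Fin (k - 1 + (ℓ - 1))) : ¬ ∀ a b, a ≠ b → (HH k ℓ).E true (f a) (f b) := by
  intro hf
  have hge : ∀ a, k - 1 ≤ (f a).1 := by
    intro a
    by_contra hlt
    -- two other vertices
    have key : ∀ b, a ≠ b → (f b).1 = k - 1 := by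
      intro b hb
      have := (hf a b hb).2
      simp only [if_true] at this
      omega
    obtain ⟨b, b', hb, hb', hbb'⟩ : ∃ b b' : Fin ℓ, a ≠ b ∧ a ≠ b' ∧ b ≠ b' := by
      let a0 : Fin ℓ := ⟨0, by omega⟩
      let a1 : Fin ℓ := ⟨1, by omega⟩
      let a2 : Fin ℓ := ⟨2, by omega⟩
      have h01 : a0 ≠ a1 := by simp [a0, a1, Fin.ext_iff]
      have h02 : a0 ≠ a2 := by simp [a0, a2, Fin.ext_iff]
      have h12 : a1 ≠ a2 := by simp [a1, a2, Fin.ext_iff]
      by_cases e0 : a = a0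
      · exact ⟨a1, a2, e0 ▸ h01, e0 ▸ h02, h12⟩
      · by_cases e1 : a = a1
        · exact ⟨a0, a2, e0, e1 ▸ h12, h02⟩
        · exact ⟨a0, a1, e0, e1, h01⟩
    exact (hf b b' hbb').1 (Fin.ext ((key b hb).trans (key b' hb').symm))
  have hinj : Function.Injective
      (fun a : Fin ℓ => (⟨(f a).1 - (k - 1), by have := (f a).2; have := hge a; omega⟩ :
        Fin (ℓ - 1))) := by
    intro a b hab
    by_contra hne
    have h1 : (f a).1 - (k - 1) = (f b).1 - (k - 1) := by simpa using hab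
    have h2 := hge a
    have h3 := hge b
    exact (hf a b hne).1 (Fin.ext (by omega))
  have := Fintype.card_le_of_injective _ hinj
  simp only [Fintype.card_fin] at this
  omega

theorem HH_free (k ℓ : ℕ) (hℓ : 3 ≤ ℓ) (hk : ℓ ≤ k) :
    (HH k ℓ).Free (fun σ => if σ = true then ℓ else k) := by
  intro σ
  cases σ with
  | false => exact fun f hf => HH_free_false k ℓ hℓ hk f hf
  | true => exact fun f hf => HH_free_true k ℓ hℓ f hf

theorem fin3_cases : ∀ z : Fin 3, z ≠ 2 → z = 0 ∨ z = 1 := by decide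

theorem result : ∀ k ℓ : ℕ, 3 ≤ ℓ → ℓ ≤ k →
    ∃ (n : ℕ) (G : SimpleGraph (Fin n)),
      ¬ Arrows G ![k, ℓ] ∧ Arrows G ![k - 1, k - 1, ℓ] := by
  classical
  intro k ℓ hℓ hk
  obtain ⟨n, A, hAirr, hAfree, hA⟩ := typed_NR_fin Bool (Fin 3)
    (fun σ => if σ = true then ℓ else k) (by rintro (_ | _) <;> simp <;> omega)
    (k - 1 + (ℓ - 1)) (HH k ℓ) (fun σ a h => h.1 rfl) (HH_free k ℓ hℓ hk)
  let G : SimpleGraph (Fin n) :=
    { Adj := fun v w => A.E false v w ∨ A.E true v w
      symm := ⟨fun v w h => h.imp (A.symm _ _ _) (A.symm _ _ _)⟩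
      loopless := ⟨fun v h => h.elim (hAirr _ _) (hAirr _ _)⟩ }
  refine ⟨n, G, ?_, ?_⟩
  · intro hG
    obtain ⟨i, S, hS, hclique⟩ := hG (fun e => if ∃ v w, s(v, w) = e.1 ∧ A.E false v w then 0 else 1)
    have hiff : ∀ x y, (∃ v w, s(v, w) = s(x, y) ∧ A.E false v w) ↔ A.E false x y := by
      intro x y
      constructor
      · rintro ⟨v, w, h1, h2⟩
        rw [Sym2.eq_iff] at h1
        rcases h1 with ⟨rfl, rfl⟩ | ⟨rfl, rfl⟩
        · exact h2
        · exact A.symm _ _ _ h2
      · intro h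
        exact ⟨x, y, rfl, h⟩
    fin_cases i
    · -- a red clique
      have hS' : S.card = k := by simpa using hS
      refine hAfree false (fun a => S.orderEmbOfFin hS' a) fun a b hab => ?_
      have hne : S.orderEmbOfFin hS' a ≠ S.orderEmbOfFin hS' b :=
        fun h => hab ((S.orderEmbOfFin hS').injective h)
      obtain ⟨h1, h2⟩ := hclique _ (S.orderEmbOfFin_mem hS' a) _ (S.orderEmbOfFin_mem hS' b) hne
      by_contra hcon
      rw [if_neg (by rw [hiff]; exact hcon)] at h2
      simp at h2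
    · have hS' : S.card = ℓ := by simpa using hS
      refine hAfree true (fun a => S.orderEmbOfFin hS' a) fun a b hab => ?_
      have hne : S.orderEmbOfFin hS' a ≠ S.orderEmbOfFin hS' b :=
        fun h => hab ((S.orderEmbOfFin hS').injective h)
      obtain ⟨h1, h2⟩ := hclique _ (S.orderEmbOfFin_mem hS' a) _ (S.orderEmbOfFin_mem hS' b) hne
      rcases h1 with h1 | h1
      · rw [if_pos (by rw [hiff]; exact h1)] at h2
        simp at h2
      · exact h1
  · intro c
    let g : Sym2 (Fin n) → Fin 3 := fun e => if h : e ∈ G.edgeSet then c ⟨e, h⟩ else 0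
    obtain ⟨φ, χ, hφ⟩ := hA (fun v w => g s(v, w)) (fun v w => congrArg g Sym2.eq_swap)
    have mk : ∀ (m : ℕ) (i : Fin 3) (f : Fin m → Fin (k - 1 + (ℓ - 1))),
        (∀ x y, x ≠ y → ∃ σ, (HH k ℓ).E σ (f x) (f y) ∧ χ σ = i) →
        ∃ S : Finset (Fin n), S.card = m ∧
          ∀ x ∈ S, ∀ y ∈ S, x ≠ y → ∃ h : G.Adj x y, c ⟨s(x, y), h⟩ = i := by
      intro m i f hf
      have hadj : ∀ x y, x ≠ y → ∃ h : G.Adj (φ (f x)) (φ (f y)),
          c ⟨s(φ (f x), φ (f y)), h⟩ = i := by
        intro x y hxy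
        obtain ⟨σ, h1, h2⟩ := hf x y hxy
        obtain ⟨h3, h4⟩ := hφ σ _ _ h1
        have h5 : G.Adj (φ (f x)) (φ (f y)) := by
          cases σ
          · exact Or.inl h3
          · exact Or.inr h3
        refine ⟨h5, ?_⟩
        have h6 : g s(φ (f x), φ (f y)) = c ⟨s(φ (f x), φ (f y)), h5⟩ := by
          simp only [g]
          rw [dif_pos (show s(φ (f x), φ (f y)) ∈ G.edgeSet from h5)]
        rw [← h6, ← h2]
        exact h4
      have hinj : Function.Injective (fun x => φ (f x)) := by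
        intro x y hxy
        by_contra hne
        exact (hadj x y hne).1.ne hxy
      refine ⟨Finset.univ.image (fun x => φ (f x)), ?_, ?_⟩
      · rw [Finset.card_image_of_injective _ hinj, Finset.card_univ, Fintype.card_fin]
      · intro v hv w hw hvw
        obtain ⟨x, -, rfl⟩ := Finset.mem_image.1 hv
        obtain ⟨y, -, rfl⟩ := Finset.mem_image.1 hw
        exact hadj x y (fun h => hvw (by rw [h]))
    -- the clique of type `false`
    have c1 : ∀ i, χ false = i → ∀ m, m ≤ k - 1 → ∃ S : Finset (Fin n), S.card = m ∧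
        ∀ x ∈ S, ∀ y ∈ S, x ≠ y → ∃ h : G.Adj x y, c ⟨s(x, y), h⟩ = i := by
      intro i hi m hm
      refine mk m i (fun a => ⟨a.1, by have := a.2; omega⟩) fun x y hxy => ⟨false, ⟨?_, ?_⟩, hi⟩
      · intro h
        exact hxy (Fin.ext (by simpa using h))
      · simp only [Bool.false_eq_true, if_false]
        have := x.2
        have := y.2
        omega
    have c2 : ∀ i, χ true = i → ∃ S : Finset (Fin n), S.card = ℓ - 1 ∧
        ∀ x ∈ S, ∀ y ∈ S, x ≠ y → ∃ h : G.Adj x y, c ⟨s(x, y), h⟩ = i := by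
      intro i hi
      refine mk (ℓ - 1) i (fun a => ⟨k - 1 + a.1, by have := a.2; omega⟩)
        fun x y hxy => ⟨true, ⟨?_, ?_⟩, hi⟩
      · intro h
        exact hxy (Fin.ext (by simpa using h))
      · simp only [if_true]
        omega
    have c3 : ∀ i, χ true = i → χ false = i → ∃ S : Finset (Fin n), S.card = k ∧
        ∀ x ∈ S, ∀ y ∈ S, x ≠ y → ∃ h : G.Adj x y, c ⟨s(x, y), h⟩ = i := by
      intro i hi hi'
      refine mk k i (fun a => ⟨a.1, by have := a.2; omega⟩) fun x y hxy => ?_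
      have hne : x.1 ≠ y.1 := fun h => hxy (Fin.ext h)
      have hx := x.2
      have hy := y.2
      by_cases h1 : x.1 < k - 1 ∧ y.1 < k - 1
      · refine ⟨false, ⟨?_, ?_⟩, hi'⟩
        · intro h
          exact hxy (Fin.ext (by simpa using h))
        · simp only [Bool.false_eq_true, if_false]
          exact h1
      · refine ⟨true, ⟨?_, ?_⟩, hi⟩
        · intro h
          exact hxy (Fin.ext (by simpa using h))
        · simp only [if_true]
          omega
    by_cases hf : χ false = 2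
    · by_cases hkl : ℓ < k
      · exact ⟨2, c1 2 hf ℓ (by omega)⟩
      · have hkl' : k = ℓ := by omega
        by_cases ht : χ true = 2
        · obtain ⟨S, h1, h2⟩ := c3 2 ht hf
          exact ⟨2, S, by rw [h1, hkl']; rfl, h2⟩
        · rcases fin3_cases _ ht with h0 | h0
          · obtain ⟨S, h1, h2⟩ := c2 0 h0
            exact ⟨0, S, by rw [h1, hkl']; rfl, h2⟩
          · obtain ⟨S, h1, h2⟩ := c2 1 h0
            exact ⟨1, S, by rw [h1, hkl']; rfl, h2⟩
    · rcases fin3_cases _ hf with h0 | h0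
      · exact ⟨0, c1 0 h0 (k - 1) le_rfl⟩
      · exact ⟨1, c1 1 h0 (k - 1) le_rfl⟩

end Pool.Agent.Results.MP_6ce170_co.ThreeColour
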